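import Pool.Agent.K6.H37.GB.Main2

/-!
# The smallest graceful tree containing a given tree: derived trees with an alpha-labelling

Let `T` be a finite tree with `m` edges such that every vertex which is not a leaf is adjacent to at
least two leaves, and let `T'` be the tree without the leaves.  Suppose that `T'` has an
alpha-labelling, with `a ≥ 2` vertices below and `b ≥ 2` vertices above the threshold (these are the two
colour classes of `T'`).  Then `γ(T) ≤ m + max (1, |a - b|)`.  If `|a - b| ≤ 1` then `T` is graceful
if one of two conditions on parities holds.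

Proof.  The labels `< a` of `T'` are kept and the labels `≥ a` are shifted by the number `E` of the
vertices which are added.  The remaining labels `a, …, a + E - 1` and the remaining differences
`1, …, E` are used by a walk on the grid (`Pool.Agent.K6.H37.GA.Walk`) which starts at the corner of the
rectangle `a × b`: the steps on the column `i` give leaves to the vertex with the label `a - 1 - i`, the
steps on the row `j` give leaves to the vertex with the old label `a + j`.  So we need a walk with a
prescribed number (at least two) of vertical steps on each column, and of horizontal steps on each row.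
The numbers can be replaced by `2` or `3` with the same parities.  If the numbers of columns and of rows
are equal there is a finite automaton with `15` states which finishes the first column and the
first row, always within the first two columns and rows (`Pool.Agent.K6.H37.GB.Plane`); such a walk exists
if and only if a certain number is even.
-/

set_option autoImplicit false

namespace Pool.Agent.Results.MP_128071_co.AlphaDerivedTree

/-- A graph with `m` edges is graceful if there is an injective map `f` of the vertices to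
`{0, 1, …, m}` such that the edge labels `|f u - f v|` are exactly `1, …, m`. -/
def Graceful {V : Type} (T : SimpleGraph V) : Prop :=
  ∃ f : V → ℕ, Function.Injective f ∧ (∀ v, f v ≤ T.edgeSet.ncard) ∧
    {d : ℕ | ∃ u v : V, T.Adj u v ∧ d = Int.natAbs ((f u : ℤ) - (f v : ℤ))} =
      Set.Icc 1 T.edgeSet.ncard

/-- The numbers of edges of the finite graceful trees which have a subgraph isomorphic to `T`. -/
def gracefulSizes {V : Type} (T : SimpleGraph V) : Set ℕ :=
  {k | ∃ (W : Type) (_ : Fintype W) (T' : SimpleGraph W),
    T'.IsTree ∧ Graceful T' ∧ T.IsContained T' ∧ T'.edgeSet.ncard = k}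

/-- `γ(T)`: the least number of edges of a graceful tree which has a subgraph isomorphic to `T`. -/
noncomputable def gamma {V : Type} (T : SimpleGraph V) : ℕ := sInf (gracefulSizes T)

/-- An alpha-labelling with threshold `a`: a graceful labelling such that every edge has one end with
a label `< a` and one end with a label `≥ a`. -/
def IsAlpha {V : Type} (T : SimpleGraph V) (a : ℕ) (f : V → ℕ) : Prop :=
  Function.Injective f ∧ (∀ v, f v ≤ T.edgeSet.ncard) ∧
    {d : ℕ | ∃ u v : V, T.Adj u v ∧ d = Int.natAbs ((f u : ℤ) - (f v : ℤ))} =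
      Set.Icc 1 T.edgeSet.ncard ∧
    ∀ u v, T.Adj u v → (f u < a ∧ a ≤ f v) ∨ (f v < a ∧ a ≤ f u)

/-- the vertices which are not leaves -/
def nonLeaves {V : Type} (T : SimpleGraph V) : Set V := {x | 2 ≤ (T.neighborSet x).ncard}

/-- the tree obtained by deleting all leaves -/
def derived {V : Type} (T : SimpleGraph V) : SimpleGraph (nonLeaves T) := T.induce (nonLeaves T)

/-- the number of the leaves which are adjacent to `x` -/
noncomputable def leavesAt {V : Type} (T : SimpleGraph V) (x : V) : ℕ :=
  {y | T.Adj x y ∧ y ∉ nonLeaves T}.ncard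

/-- the number of the leaves at the vertices with label `< a` -/
noncomputable def low {V : Type} (T : SimpleGraph V) (a : ℕ) (f : nonLeaves T → ℕ) : ℕ :=
  ∑ᶠ x : nonLeaves T, if f x < a then leavesAt T x else 0

/-- the number of the leaves at the vertices with label `≥ a` -/
noncomputable def high {V : Type} (T : SimpleGraph V) (a : ℕ) (f : nonLeaves T → ℕ) : ℕ :=
  ∑ᶠ x : nonLeaves T, if f x < a then 0 else leavesAt T x

/-- the sum over all non-leaves of the number of leaves, weighted by the distance of the label to the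
threshold -/
noncomputable def moment {V : Type} (T : SimpleGraph V) (a : ℕ) (f : nonLeaves T → ℕ) : ℕ :=
  ∑ᶠ x : nonLeaves T, (if f x < a then a - 1 - f x else f x - a) * leavesAt T x

theorem le_of_mem {V : Type} {T : SimpleGraph V} {k : ℕ}
    (hk : k ∈ gracefulSizes T) : T.edgeSet.ncard ≤ k := by
  classical
  obtain ⟨W, _, T', _, _, ⟨φ⟩, rfl⟩ := hk
  have hinj : Function.Injective φ := φ.injective
  have h1 : Sym2.map φ '' T.edgeSet ⊆ T'.edgeSet := by
    rintro _ ⟨e, he, rfl⟩
    induction e using Sym2.ind with
    | _ x y =>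
      rw [Sym2.map_mk, SimpleGraph.mem_edgeSet]
      exact φ.toHom.map_adj ((SimpleGraph.mem_edgeSet T).1 he)
  calc T.edgeSet.ncard = (Sym2.map φ '' T.edgeSet).ncard :=
        (Set.ncard_image_of_injective _ (Sym2.map.injective hinj)).symm
    _ ≤ T'.edgeSet.ncard := Set.ncard_le_ncard h1 (Set.toFinite _)

theorem sup_mem {V : Type} {T : SimpleGraph V} {M : ℕ}
    (h : ∃ G : SimpleGraph (Fin (M + 1)), G.IsTree ∧ G.edgeSet.ncard = M ∧
        {d : ℕ | ∃ u v : Fin (M + 1), G.Adj u v ∧
          d = Int.natAbs (((u : ℕ) : ℤ) - ((v : ℕ) : ℤ))} = Set.Icc 1 M ∧ T.IsContained G) :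
    M ∈ gracefulSizes T := by
  obtain ⟨G, h1, h2, h3, h4⟩ := h
  refine ⟨Fin (M + 1), inferInstance, G, h1, ⟨fun x => (x : ℕ), Fin.val_injective, ?_, ?_⟩, h4, h2⟩
  · intro v
    rw [h2]
    exact Nat.le_of_lt_succ v.2
  · rw [h2]
    exact h3

/-- Let `T` be a finite tree such that every non-leaf is adjacent to at least two leaves and the tree
without the leaves has an alpha-labelling with `a ≥ 2` vertices below and `b ≥ 2` vertices above the
threshold.  Then `|E(T)| ≤ γ(T) ≤ |E(T)| + max (1, |a - b|)`; and if `|a - b| ≤ 1` then `T` is graceful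
if `moment + low * high` is even or if `(a - 1) * low + (b - 1) * high` is odd. -/
theorem result (V : Type) [Fintype V] (T : SimpleGraph V) (hT : T.IsTree) (a b : ℕ) (ha : 2 ≤ a)
    (hb : 2 ≤ b) (hab : (nonLeaves T).ncard = a + b) (f : nonLeaves T → ℕ)
    (hf : IsAlpha (derived T) a f) (hl : ∀ x ∈ nonLeaves T, 2 ≤ leavesAt T x) :
    T.edgeSet.ncard ≤ gamma T ∧ gamma T ≤ T.edgeSet.ncard + max 1 (max (a - b) (b - a)) ∧
      (a ≤ b + 1 → b ≤ a + 1 → (Even (moment T a f + low T a f * high T a f) ∨
        Odd ((a - 1) * low T a f + (b - 1) * high T a f)) →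
        Graceful T ∧ gamma T = T.edgeSet.ncard) := by
  classical
  have : Fintype (nonLeaves T) := Fintype.ofFinite _
  obtain ⟨hf1, hf2, hf3, hf4⟩ := hf
  have hne : (nonLeaves T).Nonempty := by
    rw [← Set.ncard_pos, hab]
    omega
  have hT1 : (derived T).IsTree := Pool.Agent.H336.GW.induce_tree hT hne
  have hedge : (derived T).edgeSet.ncard + 1 = a + b := by
    rw [Pool.Agent.H336.GW.edges_card hT1, ← hab, ← Nat.card_eq_fintype_card, Nat.card_coe_set_eq]
  have hfl : ∀ x, f x < a + b := fun x => by
    have := hf2 x
    omega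
  have hfd : ∀ u v u' v', (derived T).Adj u v → (derived T).Adj u' v' →
      Int.natAbs ((f u : ℤ) - (f v : ℤ)) = Int.natAbs ((f u' : ℤ) - (f v' : ℤ)) →
      s(u, v) = s(u', v') := by
    refine Pool.Agent.H336.GW.distinct_of_all (fun x => (f x : ℤ)) _ rfl ?_ ?_
    · intro u v huv
      have h1 : Int.natAbs ((f u : ℤ) - f v) ∈ Set.Icc 1 (derived T).edgeSet.ncard := by
        rw [← hf3]
        exact ⟨u, v, huv, rfl⟩
      exact h1
    · intro j h1 h2
      have h3 : j ∈ {d : ℕ | ∃ u v : nonLeaves T, (derived T).Adj u v ∧
          d = Int.natAbs ((f u : ℤ) - (f v : ℤ))} := by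
        rw [hf3]
        exact ⟨h1, h2⟩
      obtain ⟨u, v, h4, h5⟩ := h3
      exact ⟨u, v, h4, h5.symm⟩
  obtain ⟨M, ⟨hM1, hM2'⟩, hG⟩ := Pool.Agent.K6.H37.GB.main1 (hfin := this) hT a b ha hb hedge f
    hf1 hfl hfd hf4 (fun x => leavesAt T x) rfl (fun x => hl x x.2)
  have hM2 : a ≤ b + 1 → b ≤ a + 1 →
    Pool.Agent.K6.H37.GB.nn a f (fun x : nonLeaves T => leavesAt T x) % 2 = 0 →
      M ≤ T.edgeSet.ncard := hM2'
  have hmem : gamma T ∈ gracefulSizes T := Nat.sInf_mem ⟨_, sup_mem hG⟩
  have hle : gamma T ≤ M := Nat.sInf_le (sup_mem hG)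
  refine ⟨le_of_mem hmem, by omega, ?_⟩
  intro h1 h2 h3
  suffices hgr : Graceful T from ⟨hgr, le_antisymm (Nat.sInf_le ⟨V, inferInstance, T, hT, hgr,
    SimpleGraph.IsContained.refl T, rfl⟩) (le_of_mem hmem)⟩
  have hlow : low T a f = ∑ x : nonLeaves T, if f x < a then leavesAt T x else 0 :=
    finsum_eq_sum_of_fintype _
  have hhigh : high T a f = ∑ x : nonLeaves T, if f x < a then 0 else leavesAt T x :=
    finsum_eq_sum_of_fintype _
  have hmom : moment T a f =
      ∑ x : nonLeaves T, (if f x < a then a - 1 - f x else f x - a) * leavesAt T x :=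
    finsum_eq_sum_of_fintype _
  have hnn : Pool.Agent.K6.H37.GB.nn a f (fun x : nonLeaves T => leavesAt T x) =
      moment T a f + low T a f * high T a f := by
    rw [hlow, hhigh, hmom]
    rfl
  by_cases h4 : (moment T a f + low T a f * high T a f) % 2 = 0
  · obtain ⟨G, -, g2, g3, g4⟩ := hG
    exact Pool.Agent.K6.H37.GB.graceful_of hT (hM2 h1 h2 (by rw [hnn]; exact h4)) g2 g3 g4
  · -- the reversed labelling
    have h5 : ((a - 1) * low T a f + (b - 1) * high T a f) % 2 = 1 := by
      rcases h3 with h3 | h3
      · rw [Nat.even_iff] at h3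
        exact absurd h3 h4
      · exact Nat.odd_iff.1 h3
    have h6 := Pool.Agent.K6.H37.GB.nn_rv a b f (fun x : nonLeaves T => leavesAt T x) hfl
    rw [hnn, ← hlow, ← hhigh] at h6
    have h7 : Pool.Agent.K6.H37.GB.nn a (fun x => Pool.Agent.K6.H37.GB.rv a b (f x))
        (fun x : nonLeaves T => leavesAt T x) % 2 = 0 := by omega
    obtain ⟨r, hr⟩ : ∃ r : nonLeaves T → ℕ, r = fun x => Pool.Agent.K6.H37.GB.rv a b (f x) :=
      ⟨_, rfl⟩
    rw [← hr] at h7
    have hr1 : ∀ x, f x < a → r x + f x = a - 1 ∧ r x < a := by
      intro x hx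
      rw [hr]
      unfold Pool.Agent.K6.H37.GB.rv
      simp only [if_pos hx]
      omega
    have hr2 : ∀ x, a ≤ f x → r x + f x = 2 * a + b - 1 ∧ a ≤ r x := by
      intro x hx
      have := hfl x
      rw [hr]
      unfold Pool.Agent.K6.H37.GB.rv
      simp only [if_neg (not_lt.2 hx)]
      omega
    have hrd : ∀ u v, (derived T).Adj u v → Int.natAbs ((r u : ℤ) - (r v : ℤ)) +
        Int.natAbs ((f u : ℤ) - (f v : ℤ)) = a + b := by
      intro u v huv
      have e1 := hfl u
      have e2 := hfl v
      rcases hf4 u v huv with ⟨h8, h9⟩ | ⟨h8, h9⟩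
      · have h10 := hr1 u h8
        have h11 := hr2 v h9
        omega
      · have h10 := hr1 v h8
        have h11 := hr2 u h9
        omega
    obtain ⟨M', ⟨-, hM3⟩, G, -, g2, g3, g4⟩ := Pool.Agent.K6.H37.GB.main1 (hfin := this) hT a b
      ha hb hedge r
      (by
        intro x y hxy
        apply hf1
        rcases lt_or_ge (f x) a with h8 | h8 <;> rcases lt_or_ge (f y) a with h9 | h9
        · have h10 := hr1 x h8
          have h11 := hr1 y h9
          omega
        · have h10 := hr1 x h8
          have h11 := hr2 y h9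
          omega
        · have h10 := hr2 x h8
          have h11 := hr1 y h9
          omega
        · have h10 := hr2 x h8
          have h11 := hr2 y h9
          omega)
      (by
        intro x
        rcases lt_or_ge (f x) a with h8 | h8
        · have h10 := hr1 x h8
          omega
        · have h10 := hr2 x h8
          omega)
      (by
        intro u v u' v' huv huv' hh
        refine hfd u v u' v' huv huv' ?_
        have h8 := hrd u v huv
        have h9 := hrd u' v' huv'
        omega)
      (by
        intro u v huv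
        rcases hf4 u v huv with ⟨h8, h9⟩ | ⟨h8, h9⟩
        · exact Or.inl ⟨(hr1 u h8).2, (hr2 v h9).2⟩
        · exact Or.inr ⟨(hr1 v h8).2, (hr2 u h9).2⟩)
      (fun x => leavesAt T x) rfl (fun x => hl x x.2)
    exact Pool.Agent.K6.H37.GB.graceful_of hT (hM3 h1 h2 h7) g2 g3 g4

end Pool.Agent.Results.MP_128071_co.AlphaDerivedTree
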