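import Pool.Agent.K6.H37.GC.Mix3
import Pool.Agent.K6.H37.GB.Main2

/-!
# The smallest graceful tree containing a given tree: graceful trees with many leaves at every level

The derived tree of a tree is obtained by deleting all its leaves.  Let `T` be a finite tree such that,
for some `h ≥ 1`, the `h`-th derived tree of `T` is a caterpillar and, for every `i < h`, every non-leaf of
the `i`-th derived tree is adjacent to at least seven leaves of it.  Let `T'` be the derived tree.
Suppose that `T'` has a vertex `x` which is adjacent to at least eleven leaves of `T'`, and that two of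
these have degrees of different parity in `T`.  Then `T` is graceful.

Proof.  As for `LeafyTrees`, `T'` has a labelling with a threshold which can be extended to `T` if a
certain number is even.  Now it can be chosen such that two leaves at `x` get the labels `k`, `k + 1` on the
same side of the threshold (`Pool.Agent.K6.H37.GC.Mix`, `Pool.Agent.K6.H37.GC.Mix2`), and we may suppose
that these are the two given leaves.  The exchange of their labels gives another labelling of `T'`, and
the number changes its parity (`Pool.Agent.K6.H37.GC.Mix3`).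
-/

set_option autoImplicit false

namespace Pool.Agent.Results.MP_128071_co.LeafyMixed

/-- A graph with `m` edges is graceful if there is an injective map `f` of the vertices to
`{0, 1, …, m}` such that the edge labels `|f u - f v|` are exactly `1, …, m`. -/
def Graceful {V : Type} (T : SimpleGraph V) : Prop :=
  ∃ f : V → ℕ, Function.Injective f ∧ (∀ v, f v ≤ T.edgeSet.ncard) ∧
    {d : ℕ | ∃ u v : V, T.Adj u v ∧ d = Int.natAbs ((f u : ℤ) - (f v : ℤ))} =
      Set.Icc 1 T.edgeSet.ncard

/-- The numbers of edges of the finite graceful trees which have a subgraph isomorphic to `T`. -/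
def gracefulSizes {V : Type} (T : SimpleGraph V) : Set ℕ :=
  {k | ∃ (W : Type) (_ : Fintype W) (T' : SimpleGraph W),
    T'.IsTree ∧ Graceful T' ∧ T.IsContained T' ∧ T'.edgeSet.ncard = k}

/-- `γ(T)`: the least number of edges of a graceful tree which has a subgraph isomorphic to `T`. -/
noncomputable def gamma {V : Type} (T : SimpleGraph V) : ℕ := sInf (gracefulSizes T)

/-- the vertices which are not leaves -/
def nonLeaves {V : Type} (T : SimpleGraph V) : Set V := {x | 2 ≤ (T.neighborSet x).ncard}

/-- the tree obtained by deleting all leaves -/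
def derived {V : Type} (T : SimpleGraph V) : SimpleGraph (nonLeaves T) := T.induce (nonLeaves T)

/-- the number of the leaves which are adjacent to `x` -/
noncomputable def leavesAt {V : Type} (T : SimpleGraph V) (x : V) : ℕ :=
  {y | T.Adj x y ∧ y ∉ nonLeaves T}.ncard

/-- a caterpillar: a tree in which every vertex is adjacent to at most two non-leaves -/
def IsCaterpillar {V : Type} (T : SimpleGraph V) : Prop :=
  T.IsTree ∧ ∀ x, {y | T.Adj x y ∧ y ∈ nonLeaves T}.ncard ≤ 2

/-- `Leafy h T`: the `h`-th derived tree of `T` is a caterpillar and, for every `i < h`, every non-leaf of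
the `i`-th derived tree is adjacent to at least seven leaves of the `i`-th derived tree -/
def Leafy : ℕ → ∀ {V : Type}, SimpleGraph V → Prop
  | 0, _, T => IsCaterpillar T
  | h + 1, _, T => (∀ x ∈ nonLeaves T, 7 ≤ leavesAt T x) ∧ Leafy h (derived T)

open Pool.Agent.K6.H37.GC (Gd Qd Cat q0 q1 of_gd pair_of cat_pair mix_of)
open Pool.Agent.H336.GW (inner induce_tree edges_card)

theorem le_of_mem {V : Type} {T : SimpleGraph V} {k : ℕ}
    (hk : k ∈ gracefulSizes T) : T.edgeSet.ncard ≤ k := by
  classical
  obtain ⟨W, _, T', _, _, ⟨φ⟩, rfl⟩ := hk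
  have hinj : Function.Injective φ := φ.injective
  have h1 : Sym2.map φ '' T.edgeSet ⊆ T'.edgeSet := by
    rintro _ ⟨e, he, rfl⟩
    induction e using Sym2.ind with
    | _ x y =>
      rw [Sym2.map_mk, SimpleGraph.mem_edgeSet]
      exact φ.toHom.map_adj ((SimpleGraph.mem_edgeSet T).1 he)
  calc T.edgeSet.ncard = (Sym2.map φ '' T.edgeSet).ncard :=
        (Set.ncard_image_of_injective _ (Sym2.map.injective hinj)).symm
    _ ≤ T'.edgeSet.ncard := Set.ncard_le_ncard h1 (Set.toFinite _)

theorem sup_mem {V : Type} {T : SimpleGraph V} {M : ℕ}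
    (h : ∃ G : SimpleGraph (Fin (M + 1)), G.IsTree ∧ G.edgeSet.ncard = M ∧
        {d : ℕ | ∃ u v : Fin (M + 1), G.Adj u v ∧
          d = Int.natAbs (((u : ℕ) : ℤ) - ((v : ℕ) : ℤ))} = Set.Icc 1 M ∧ T.IsContained G) :
    M ∈ gracefulSizes T := by
  obtain ⟨G, h1, h2, h3, h4⟩ := h
  refine ⟨Fin (M + 1), inferInstance, G, h1, ⟨fun x => (x : ℕ), Fin.val_injective, ?_, ?_⟩, h4, h2⟩
  · intro v
    rw [h2]
    exact Nat.le_of_lt_succ v.2
  · rw [h2]
    exact h3

theorem cat_of {V : Type} [Fintype V] {T : SimpleGraph V} (h : IsCaterpillar T) : Cat T := by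
  classical
  intro x a b c ha hb hc h1 h2 h3
  by_contra hcon
  push Not at hcon
  have h4 : (({a, b, c} : Finset V) : Set V) ⊆ {y | T.Adj x y ∧ y ∈ nonLeaves T} := by
    intro y hy
    rw [Finset.mem_coe] at hy
    simp only [Finset.mem_insert, Finset.mem_singleton] at hy
    rcases hy with rfl | rfl | rfl
    · exact ⟨h1, ha⟩
    · exact ⟨h2, hb⟩
    · exact ⟨h3, hc⟩
  have h5 := Set.ncard_le_ncard h4 (Set.toFinite _)
  have h6 : ({a, b, c} : Finset V).card = 3 := by
    rw [Finset.card_insert_of_notMem, Finset.card_insert_of_notMem, Finset.card_singleton]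
    · simpa using hcon.2.2
    · simp only [Finset.mem_insert, Finset.mem_singleton, not_or]
      exact ⟨hcon.1, hcon.2.1⟩
  rw [Set.ncard_coe_finset, h6] at h5
  have := h.2 x
  omega

theorem leafy_nonempty : ∀ (h : ℕ) {V : Type} (T : SimpleGraph V), Leafy h T → Nonempty V := by
  intro h
  induction h with
  | zero =>
    intro V T hL
    exact hL.1.1.nonempty
  | succ h ih =>
    intro V T hL
    obtain ⟨x⟩ := ih _ hL.2
    exact ⟨x⟩

theorem leafy_qd : ∀ (h : ℕ) {V : Type} [Fintype V] (T : SimpleGraph V), T.IsTree → Leafy h T →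
    Qd T := by
  classical
  intro h
  induction h with
  | zero =>
    intro V _ T hT hL
    exact q0 hT (cat_of hL)
  | succ h ih =>
    intro V _ T hT hL
    have : Fintype (nonLeaves T) := Fintype.ofFinite _
    obtain ⟨x⟩ := leafy_nonempty _ _ hL.2
    have hne : (inner T).Nonempty := ⟨x, x.2⟩
    exact Or.inl (@q1 V _ T hT this hne (ih (derived T) (induce_tree hT hne) hL.2) hL.1)

/-- Let `T` be a finite tree such that for some `h ≥ 1` the `h`-th derived tree is a caterpillar and, for
every `i < h`, every non-leaf of the `i`-th derived tree is adjacent to at least seven leaves of it.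
Suppose that some vertex `x` of the derived tree `T'` is adjacent to at least eleven leaves of `T'`, and
that two of these leaves, `y1` and `y2`, have degrees of different parity in `T`.  Then `T` is graceful,
so that `γ(T)` is the number of the edges of `T`. -/
theorem result (V : Type) [Fintype V] (T : SimpleGraph V) (hT : T.IsTree) (h : ℕ) (hh : 1 ≤ h)
    (hL : Leafy h T) (x y1 y2 : nonLeaves T) (hx : 11 ≤ leavesAt (derived T) x)
    (hy1 : (derived T).Adj x y1) (hy1' : y1 ∉ nonLeaves (derived T))
    (hy2 : (derived T).Adj x y2) (hy2' : y2 ∉ nonLeaves (derived T))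
    (hodd : Odd ((T.neighborSet y1).ncard + (T.neighborSet y2).ncard)) :
    Graceful T ∧ gamma T = T.edgeSet.ncard := by
  classical
  obtain ⟨h, rfl⟩ : ∃ k, h = k + 1 := ⟨h - 1, by omega⟩
  have inst1 : Fintype (nonLeaves T) := Fintype.ofFinite _
  have hne : (inner T).Nonempty := ⟨x, x.2⟩
  have hT1 : (derived T).IsTree := induce_tree hT hne
  have hcard := edges_card hT
  have h12 : y1 ≠ y2 := by
    intro h1
    rw [h1] at hodd
    rw [Nat.odd_iff] at hodd
    omega
  have hpair : ∃ (M : ℕ) (G : SimpleGraph (Fin (M + 1))) (n p : ℕ)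
      (φ : nonLeaves T → Fin (M + 1)), Gd (derived T) M G n p φ ∧
        (((φ y1 : ℕ) < n ∧ (φ y2 : ℕ) < n) ∨ (n ≤ (φ y1 : ℕ) ∧ n ≤ (φ y2 : ℕ))) ∧
        ((φ y1 : ℕ) + φ y2) % 2 = 1 := by
    have hx5 : 5 ≤ leavesAt (derived T) x := by omega
    rcases h with _ | h
    · exact cat_pair hT1 (cat_of hL.2) x hx5 y1 y2 h12 hy1 hy1' hy2 hy2'
    · have inst2 : Fintype (nonLeaves (derived T)) := Fintype.ofFinite _
      have hxi : x ∈ inner (derived T) := Pool.Agent.H336.GW.two_le_of hy1 hy2 h12
      have hne2 : (inner (derived T)).Nonempty := ⟨x, hxi⟩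
      exact @pair_of _ inst1 (derived T) hT1 inst2 hne2
        (leafy_qd h (derived (derived T)) (induce_tree hT1 hne2) hL.2.2) hL.2.1 x hx y1 y2 h12
        hy1 hy1' hy2 hy2'
  obtain ⟨M, G, n, p, φ, hG, hM⟩ := @mix_of V _ T hT inst1 hne hL.1 x y1 y2 hy1 hy1' hy2 hy2'
    (Nat.odd_iff.1 hodd) hpair
  obtain ⟨-, h2⟩ := of_gd hG
  have hmem : gamma T ∈ gracefulSizes T := Nat.sInf_mem ⟨_, sup_mem h2⟩
  obtain ⟨G, g1, g2, g3, g4⟩ := h2
  have hgr : Graceful T := Pool.Agent.K6.H37.GB.graceful_of hT (by omega) g2 g3 g4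
  exact ⟨hgr, le_antisymm (Nat.sInf_le ⟨V, inferInstance, T, hT, hgr,
    SimpleGraph.IsContained.refl T, rfl⟩) (le_of_mem hmem)⟩

end Pool.Agent.Results.MP_128071_co.LeafyMixed
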