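import Pool.Agent.K6.H37.GC.Odd
import Pool.Agent.K6.H37.GB.Main2

/-!
# The smallest graceful tree containing a given tree: trees with many leaves at every level

The derived tree of a tree is obtained by deleting all its leaves.  Let `T` be a finite tree with `m`
edges such that, for some `h ≥ 1`, the `h`-th derived tree of `T` is a caterpillar and, for every `i < h`,
every non-leaf of the `i`-th derived tree is adjacent to at least seven leaves of it.  For `h = 1` these
are all lobsters in which every non-leaf has at least seven leaves; for large `h` the trees have large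
height.  Then `m ≤ γ(T) ≤ m + 1`, and `T` is graceful if all its degrees are odd.

Proof.  A cut labelling of a tree with `k` vertices is a graceful labelling with a threshold `n`, where
`n` and `k - n` differ by at most one, such that the edges which cross the threshold have the largest
differences.  A caterpillar has such a labelling (the edges, as intervals of labels, form a chain).  Let
the derived tree `T'` of `T` have a cut labelling.  The labels `≥ n` are shifted by the number of the
leaves of `T`; the remaining labels and the remaining differences are used by a walk on the grid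
(`Pool.Agent.K6.H37.GA.Walk`) inside a rectangle `n × (k - n)` which starts on its diagonal: the vertical
steps on a column and the horizontal steps on a row give leaves to the vertex of this column or row.
If the numbers of leaves are at least five and three parities are even there is a closed walk with the
prescribed numbers of steps which visits all points near the diagonal
(`Pool.Agent.K6.H37.GC.Walk`).  So the walk can be chosen to end near the diagonal
(`Pool.Agent.K6.H37.GC.Step`), and the new labelling is a cut labelling of `T` again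
(`Pool.Agent.K6.H37.GC.Cut`).  If a certain number is odd, then one additional leaf is necessary; it gets a
label next to the threshold, and in the next step it becomes one of the leaves (a line of the rectangle
without steps).  So there is never more than one additional leaf.  If all degrees of `T` are odd then the
number is even in the last step (`Pool.Agent.K6.H37.GC.Odd`).
-/

set_option autoImplicit false

namespace Pool.Agent.Results.MP_128071_co.LeafyTrees

/-- A graph with `m` edges is graceful if there is an injective map `f` of the vertices to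
`{0, 1, …, m}` such that the edge labels `|f u - f v|` are exactly `1, …, m`. -/
def Graceful {V : Type} (T : SimpleGraph V) : Prop :=
  ∃ f : V → ℕ, Function.Injective f ∧ (∀ v, f v ≤ T.edgeSet.ncard) ∧
    {d : ℕ | ∃ u v : V, T.Adj u v ∧ d = Int.natAbs ((f u : ℤ) - (f v : ℤ))} =
      Set.Icc 1 T.edgeSet.ncard

/-- The numbers of edges of the finite graceful trees which have a subgraph isomorphic to `T`. -/
def gracefulSizes {V : Type} (T : SimpleGraph V) : Set ℕ :=
  {k | ∃ (W : Type) (_ : Fintype W) (T' : SimpleGraph W),
    T'.IsTree ∧ Graceful T' ∧ T.IsContained T' ∧ T'.edgeSet.ncard = k}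

/-- `γ(T)`: the least number of edges of a graceful tree which has a subgraph isomorphic to `T`. -/
noncomputable def gamma {V : Type} (T : SimpleGraph V) : ℕ := sInf (gracefulSizes T)

/-- the vertices which are not leaves -/
def nonLeaves {V : Type} (T : SimpleGraph V) : Set V := {x | 2 ≤ (T.neighborSet x).ncard}

/-- the tree obtained by deleting all leaves -/
def derived {V : Type} (T : SimpleGraph V) : SimpleGraph (nonLeaves T) := T.induce (nonLeaves T)

/-- the number of the leaves which are adjacent to `x` -/
noncomputable def leavesAt {V : Type} (T : SimpleGraph V) (x : V) : ℕ :=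
  {y | T.Adj x y ∧ y ∉ nonLeaves T}.ncard

/-- a caterpillar: a tree in which every vertex is adjacent to at most two non-leaves -/
def IsCaterpillar {V : Type} (T : SimpleGraph V) : Prop :=
  T.IsTree ∧ ∀ x, {y | T.Adj x y ∧ y ∈ nonLeaves T}.ncard ≤ 2

/-- `Leafy h T`: the `h`-th derived tree of `T` is a caterpillar and, for every `i < h`, every non-leaf of
the `i`-th derived tree is adjacent to at least seven leaves of the `i`-th derived tree -/
def Leafy : ℕ → ∀ {V : Type}, SimpleGraph V → Prop
  | 0, _, T => IsCaterpillar T
  | h + 1, _, T => (∀ x ∈ nonLeaves T, 7 ≤ leavesAt T x) ∧ Leafy h (derived T)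

open Pool.Agent.K6.H37.GC (Gd Qd Cat q0 q1 q1_odd of_gd)
open Pool.Agent.H336.GW (inner induce_tree edges_card)

theorem le_of_mem {V : Type} {T : SimpleGraph V} {k : ℕ}
    (hk : k ∈ gracefulSizes T) : T.edgeSet.ncard ≤ k := by
  classical
  obtain ⟨W, _, T', _, _, ⟨φ⟩, rfl⟩ := hk
  have hinj : Function.Injective φ := φ.injective
  have h1 : Sym2.map φ '' T.edgeSet ⊆ T'.edgeSet := by
    rintro _ ⟨e, he, rfl⟩
    induction e using Sym2.ind with
    | _ x y =>
      rw [Sym2.map_mk, SimpleGraph.mem_edgeSet]
      exact φ.toHom.map_adj ((SimpleGraph.mem_edgeSet T).1 he)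
  calc T.edgeSet.ncard = (Sym2.map φ '' T.edgeSet).ncard :=
        (Set.ncard_image_of_injective _ (Sym2.map.injective hinj)).symm
    _ ≤ T'.edgeSet.ncard := Set.ncard_le_ncard h1 (Set.toFinite _)

theorem sup_mem {V : Type} {T : SimpleGraph V} {M : ℕ}
    (h : ∃ G : SimpleGraph (Fin (M + 1)), G.IsTree ∧ G.edgeSet.ncard = M ∧
        {d : ℕ | ∃ u v : Fin (M + 1), G.Adj u v ∧
          d = Int.natAbs (((u : ℕ) : ℤ) - ((v : ℕ) : ℤ))} = Set.Icc 1 M ∧ T.IsContained G) :
    M ∈ gracefulSizes T := by
  obtain ⟨G, h1, h2, h3, h4⟩ := h
  refine ⟨Fin (M + 1), inferInstance, G, h1, ⟨fun x => (x : ℕ), Fin.val_injective, ?_, ?_⟩, h4, h2⟩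
  · intro v
    rw [h2]
    exact Nat.le_of_lt_succ v.2
  · rw [h2]
    exact h3

theorem cat_of {V : Type} [Fintype V] {T : SimpleGraph V} (h : IsCaterpillar T) : Cat T := by
  classical
  intro x a b c ha hb hc h1 h2 h3
  by_contra hcon
  push Not at hcon
  have h4 : (({a, b, c} : Finset V) : Set V) ⊆ {y | T.Adj x y ∧ y ∈ nonLeaves T} := by
    intro y hy
    rw [Finset.mem_coe] at hy
    simp only [Finset.mem_insert, Finset.mem_singleton] at hy
    rcases hy with rfl | rfl | rfl
    · exact ⟨h1, ha⟩
    · exact ⟨h2, hb⟩
    · exact ⟨h3, hc⟩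
  have h5 := Set.ncard_le_ncard h4 (Set.toFinite _)
  have h6 : ({a, b, c} : Finset V).card = 3 := by
    rw [Finset.card_insert_of_notMem, Finset.card_insert_of_notMem, Finset.card_singleton]
    · simpa using hcon.2.2
    · simp only [Finset.mem_insert, Finset.mem_singleton, not_or]
      exact ⟨hcon.1, hcon.2.1⟩
  rw [Set.ncard_coe_finset, h6] at h5
  have := h.2 x
  omega

theorem leafy_nonempty : ∀ (h : ℕ) {V : Type} (T : SimpleGraph V), Leafy h T → Nonempty V := by
  intro h
  induction h with
  | zero =>
    intro V T hL
    exact hL.1.1.nonempty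
  | succ h ih =>
    intro V T hL
    obtain ⟨x⟩ := ih _ hL.2
    exact ⟨x⟩

theorem leafy_qd : ∀ (h : ℕ) {V : Type} [Fintype V] (T : SimpleGraph V), T.IsTree → Leafy h T →
    Qd T := by
  classical
  intro h
  induction h with
  | zero =>
    intro V _ T hT hL
    exact q0 hT (cat_of hL)
  | succ h ih =>
    intro V _ T hT hL
    have : Fintype (nonLeaves T) := Fintype.ofFinite _
    obtain ⟨x⟩ := leafy_nonempty _ _ hL.2
    have hne : (inner T).Nonempty := ⟨x, x.2⟩
    exact Or.inl (@q1 V _ T hT this hne (ih (derived T) (induce_tree hT hne) hL.2) hL.1)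

/-- Let `T` be a finite tree with `m` edges such that for some `h ≥ 1` the `h`-th derived tree is a
caterpillar and, for every `i < h`, every non-leaf of the `i`-th derived tree is adjacent to at least
seven leaves of it.  Then `m ≤ γ(T) ≤ m + 1`; and if all degrees of `T` are odd, then `T` is graceful, so
that `γ(T) = m`. -/
theorem result (V : Type) [Fintype V] (T : SimpleGraph V) (hT : T.IsTree) (h : ℕ) (hh : 1 ≤ h)
    (hL : Leafy h T) :
    T.edgeSet.ncard ≤ gamma T ∧ gamma T ≤ T.edgeSet.ncard + 1 ∧
      ((∀ x, Odd (T.neighborSet x).ncard) → Graceful T ∧ gamma T = T.edgeSet.ncard) := by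
  classical
  obtain ⟨h, rfl⟩ : ∃ k, h = k + 1 := ⟨h - 1, by omega⟩
  have : Fintype (nonLeaves T) := Fintype.ofFinite _
  obtain ⟨x⟩ := leafy_nonempty _ _ hL.2
  have hne : (inner T).Nonempty := ⟨x, x.2⟩
  have hq : Qd (derived T) := leafy_qd h (derived T) (induce_tree hT hne) hL.2
  have hcard := edges_card hT
  obtain ⟨M, G, n, p, φ, hG⟩ := @q1 V _ T hT this hne hq hL.1
  obtain ⟨h1, h2⟩ := of_gd hG
  have hmem : gamma T ∈ gracefulSizes T := Nat.sInf_mem ⟨_, sup_mem h2⟩
  have hle : gamma T ≤ M := Nat.sInf_le (sup_mem h2)
  refine ⟨le_of_mem hmem, by omega, ?_⟩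
  intro hodd
  obtain ⟨M, G, n, p, φ, hG, hM⟩ := @q1_odd V _ T hT this hne hq hL.1
    (fun x => Nat.odd_iff.1 (hodd x))
  obtain ⟨-, G, g1, g2, g3, g4⟩ := of_gd hG
  have hgr : Graceful T := Pool.Agent.K6.H37.GB.graceful_of hT (by omega) g2 g3 g4
  exact ⟨hgr, le_antisymm (Nat.sInf_le ⟨V, inferInstance, T, hT, hgr,
    SimpleGraph.IsContained.refl T, rfl⟩) (le_of_mem hmem)⟩

end Pool.Agent.Results.MP_128071_co.LeafyTrees
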