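import Pool.Agent.K6.H37.GA.Main

/-!
# The smallest graceful tree containing a given tree: `γ(T) ≤ m + 16 k` for `k` vertices of `T''`

Let `T` be a finite tree with `m` edges.  Delete all leaves of `T`, and then all leaves of the tree
obtained; let `T''` be the tree of the vertices which are left and `k` the number of its vertices.
Then `m ≤ γ(T) ≤ m + 16 k`, and `γ(T) ≤ m + 8 γ(T'') + 4 k + 7` if `k > 0`.  So the excess is linear in
the number of vertices of the smallest subtree such that every vertex of `T` is at distance at most two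
from it, for instance at most `16 (d + 1)` for a tree of diameter `6` with `d` branches of height `3` at
its centre.

Proof.  Let `K = γ(T'')`.  The vertices of `T''` get labels in the window `[M - K, M]` by a graceful
labelling of a smallest graceful tree containing `T''`.  The remaining labels and differences are used
by a walk on the grid (`Pool.Agent.K6.H37.GA.Walk`): the unused labels and the unused differences are
always intervals, and every step gives a child to one of two current vertices `X` and `Y`, and changes the
other one by `1`.  First the vertices of `T''` get their leaves.  Then they get their other children,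
half of them to the left and half of them to the right; these are blocks of consecutive labels.  Then
the walk goes through these blocks in a zigzag and gives the vertices their leaves; odd numbers of
leaves need no additional vertices, and four even numbers are treated together by a loop around a unit
square of the grid.
-/

set_option autoImplicit false

namespace Pool.Agent.Results.MP_128071_co.SecondDerivedTree

/-- A graph with `m` edges is graceful if there is an injective map `f` of the vertices to
`{0, 1, …, m}` such that the edge labels `|f u - f v|` are exactly `1, …, m`. -/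
def Graceful {V : Type} (T : SimpleGraph V) : Prop :=
  ∃ f : V → ℕ, Function.Injective f ∧ (∀ v, f v ≤ T.edgeSet.ncard) ∧
    {d : ℕ | ∃ u v : V, T.Adj u v ∧ d = Int.natAbs ((f u : ℤ) - (f v : ℤ))} =
      Set.Icc 1 T.edgeSet.ncard

/-- The numbers of edges of the finite graceful trees which have a subgraph isomorphic to `T`. -/
def gracefulSizes {V : Type} (T : SimpleGraph V) : Set ℕ :=
  {k | ∃ (W : Type) (_ : Fintype W) (T' : SimpleGraph W),
    T'.IsTree ∧ Graceful T' ∧ T.IsContained T' ∧ T'.edgeSet.ncard = k}

/-- `γ(T)`: the least number of edges of a graceful tree which has a subgraph isomorphic to `T`. -/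
noncomputable def gamma {V : Type} (T : SimpleGraph V) : ℕ := sInf (gracefulSizes T)

/-- the vertices which are not leaves -/
def nonLeaves {V : Type} (T : SimpleGraph V) : Set V := {x | 2 ≤ (T.neighborSet x).ncard}

/-- the tree obtained by deleting all leaves -/
def derived {V : Type} (T : SimpleGraph V) : SimpleGraph (nonLeaves T) := T.induce (nonLeaves T)

theorem le_of_mem {V : Type} {T : SimpleGraph V} {k : ℕ}
    (hk : k ∈ gracefulSizes T) : T.edgeSet.ncard ≤ k := by
  classical
  obtain ⟨W, _, T', _, _, ⟨φ⟩, rfl⟩ := hk
  have hinj : Function.Injective φ := φ.injective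
  have h1 : Sym2.map φ '' T.edgeSet ⊆ T'.edgeSet := by
    rintro _ ⟨e, he, rfl⟩
    induction e using Sym2.ind with
    | _ x y =>
      rw [Sym2.map_mk, SimpleGraph.mem_edgeSet]
      exact φ.toHom.map_adj ((SimpleGraph.mem_edgeSet T).1 he)
  calc T.edgeSet.ncard = (Sym2.map φ '' T.edgeSet).ncard :=
        (Set.ncard_image_of_injective _ (Sym2.map.injective hinj)).symm
    _ ≤ T'.edgeSet.ncard := Set.ncard_le_ncard h1 (Set.toFinite _)

theorem sup_mem {V : Type} {T : SimpleGraph V} {M : ℕ} (h : Pool.Agent.TH529.GD.Sup T M) :
    M ∈ gracefulSizes T := by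
  obtain ⟨G, h1, h2, h3, h4⟩ := h
  refine ⟨Fin (M + 1), inferInstance, G, h1, ⟨fun x => (x : ℕ), Fin.val_injective, ?_, ?_⟩, h4, h2⟩
  · intro v
    rw [h2]
    exact Nat.le_of_lt_succ v.2
  · rw [h2]
    exact h3

theorem sup_mem' {V : Type} {T : SimpleGraph V} {M : ℕ} (h : Pool.Agent.TH368.GD.Sup T M) :
    M ∈ gracefulSizes T := by
  obtain ⟨T', t1, t2, t3, t4⟩ := h
  exact ⟨Fin (M + 1), inferInstance, T', t1, t2, t3, t4⟩

/-- Let `T` be a finite tree and `k` the number of vertices which are left if all leaves are deleted
twice.  Then `|E(T)| ≤ γ(T) ≤ |E(T)| + 16 k`; and if `k > 0` and `T''` is the tree which is left, then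
`γ(T) ≤ |E(T)| + 8 γ(T'') + 4 k + 7`. -/
theorem result (V : Type) [Fintype V] (T : SimpleGraph V) (hT : T.IsTree) :
    gamma T ∈ gracefulSizes T ∧ T.edgeSet.ncard ≤ gamma T ∧
      gamma T ≤ T.edgeSet.ncard + 16 * (nonLeaves (derived T)).ncard ∧
      ((nonLeaves (derived T)).Nonempty → gamma T ≤ T.edgeSet.ncard +
        8 * gamma (derived (derived T)) + 4 * (nonLeaves (derived T)).ncard + 7) := by
  classical
  obtain ⟨M0, -, hM0⟩ := Pool.Agent.K6.H37.GA.exists_sup hT
  have hmem : gamma T ∈ gracefulSizes T := Nat.sInf_mem ⟨_, sup_mem hM0⟩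
  refine ⟨hmem, le_of_mem hmem, ?_⟩
  by_cases hne : (nonLeaves (derived T)).Nonempty
  · have hne1 : (nonLeaves T).Nonempty := ⟨hne.some, hne.some.2⟩
    have hT1 : (derived T).IsTree := Pool.Agent.H336.GW.induce_tree hT hne1
    have : Fintype (nonLeaves T) := Fintype.ofFinite _
    have hT2 : (derived (derived T)).IsTree := Pool.Agent.H336.GW.induce_tree hT1 hne
    have : Fintype (nonLeaves (derived T)) := Fintype.ofFinite _
    obtain ⟨M1, hM1, hM1'⟩ := Pool.Agent.K6.H37.GA.exists_sup hT2
    have hmem2 : gamma (derived (derived T)) ∈ gracefulSizes (derived (derived T)) :=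
      Nat.sInf_mem ⟨_, sup_mem hM1'⟩
    have hle2 : gamma (derived (derived T)) ≤ M1 := Nat.sInf_le (sup_mem hM1')
    have hedge := Pool.Agent.H336.GW.edges_card hT2
    have hcard : Fintype.card (nonLeaves (derived T)) = (nonLeaves (derived T)).ncard := by
      rw [← Nat.card_eq_fintype_card, Nat.card_coe_set_eq]
    obtain ⟨W, _, S, hS1, ⟨F, hF1, hF2, hF3⟩, hS2, hS3⟩ := hmem2
    obtain ⟨M, hM, hsup⟩ := Pool.Agent.K6.H37.GA.two_main hT hne S hS1 F hF1 hF2 hF3 hS2
    have hM' : gamma T ≤ M := Nat.sInf_le (sup_mem hsup)
    have hMb : M ≤ T.edgeSet.ncard + 8 * S.edgeSet.ncard + 4 * (nonLeaves (derived T)).ncard + 7 :=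
      hM
    rw [hS3] at hMb
    refine ⟨?_, fun _ => ?_⟩
    · omega
    · omega
  · have he : nonLeaves (derived T) = ∅ := Set.not_nonempty_iff_eq_empty.1 hne
    refine ⟨?_, fun h => absurd h hne⟩
    rcases Pool.Agent.K6.H37.GA.sup_empty hT he with h | ⟨M, h1, h2⟩
    · have h3 : gamma T ≤ T.edgeSet.ncard := Nat.sInf_le (sup_mem h)
      omega
    · have h3 : gamma T ≤ M := Nat.sInf_le (sup_mem' h2)
      omega

end Pool.Agent.Results.MP_128071_co.SecondDerivedTree
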